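import Mathlib

/-!
# Total number of sides of `k` faces of a simple arrangement of lines

`a(k) = 2 k (k - 1)` for every `k ≥ 1`.

Upper bound: two different faces have at most four bounding lines in common.
Lower bound: take `k` small equal discs whose centres are in general position and all their
pairwise common tangents, four for each pair.  Every tangent of a disc bounds the face which
contains the disc, so each of the `k` faces has `4 (k - 1)` sides, while there are `2 k (k - 1)`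
lines.  A small perturbation makes the arrangement simple.
-/

namespace Pool.Agent.Results.MP_fa8579_co.ExactValue

open Filter Topology Matrix

/-- Vectors of homogeneous coordinates in the real projective plane: a point is a nonzero vector
up to a scalar, and a nonzero vector `a` stands for the line of all points `x` with
`a ⬝ᵥ x = 0`. -/
abbrev V := Fin 3 → ℝ

/-- The vectors `a i` define an arrangement of `n ≥ 3` distinct lines which do not all pass
through a common point. -/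
def IsArrangement {n : ℕ} (a : Fin n → V) : Prop :=
  3 ≤ n ∧ (∀ i, a i ≠ 0) ∧ (∀ i j, i ≠ j → ∀ c : ℝ, a i ≠ c • a j) ∧
    ∀ x : V, (∀ i, a i ⬝ᵥ x = 0) → x = 0

/-- No three of the lines pass through a common point. -/
def IsSimple {n : ℕ} (a : Fin n → V) : Prop :=
  ∀ i j k, i ≠ j → i ≠ k → j ≠ k →
    ∀ x : V, a i ⬝ᵥ x = 0 → a j ⬝ᵥ x = 0 → a k ⬝ᵥ x = 0 → x = 0

/-- The vectors representing the points outside the union of the lines. -/
def offLines {n : ℕ} (a : Fin n → V) : Set V := {x | ∀ i, a i ⬝ᵥ x ≠ 0}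

/-- The face of the arrangement which contains the point `x`, as the set of all vectors
representing its points: the connected component of `x` in `offLines a` and its negative. -/
def face {n : ℕ} (a : Fin n → V) (x : V) : Set V :=
  {y | y ∈ connectedComponentIn (offLines a) x ∨ -y ∈ connectedComponentIn (offLines a) x}

/-- `F` is a face of the arrangement. -/
def IsFace {n : ℕ} (a : Fin n → V) (F : Set V) : Prop := ∃ x ∈ offLines a, F = face a x

/-- The line `a i` bounds the face `F`: it contains an edge of `F`, that is, it meets the closure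
of `F` in more than one point of the projective plane. -/
def IsSide {n : ℕ} (a : Fin n → V) (F : Set V) (i : Fin n) : Prop :=
  ∃ u ∈ closure F, ∃ v ∈ closure F, LinearIndependent ℝ ![u, v] ∧ a i ⬝ᵥ u = 0 ∧ a i ⬝ᵥ v = 0

/-- The number of sides of the face `F`. -/
noncomputable def sides {n : ℕ} (a : Fin n → V) (F : Set V) : ℕ := {i | IsSide a F i}.ncard

/-! ### Elementary facts -/

lemma dot3 (u x : V) : u ⬝ᵥ x = u 0 * x 0 + u 1 * x 1 + u 2 * x 2 := by
  simp [dotProduct, Fin.sum_univ_three]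

lemma dot_cont (u : V) : Continuous fun x : V => u ⬝ᵥ x := by
  simp only [dot3]
  fun_prop

/-- The determinant of three vectors. -/
def det3 (u v w : V) : ℝ :=
  u 0 * (v 1 * w 2 - v 2 * w 1) - u 1 * (v 0 * w 2 - v 2 * w 0) + u 2 * (v 0 * w 1 - v 1 * w 0)

lemma det3_eq (u v w : V) : det3 u v w = (Matrix.of ![u, v, w]).det := by
  rw [Matrix.det_fin_three]
  simp [det3]
  ring

lemma det3_ne_zero_iff (u v w : V) :
    det3 u v w ≠ 0 ↔ ∀ x : V, u ⬝ᵥ x = 0 → v ⬝ᵥ x = 0 → w ⬝ᵥ x = 0 → x = 0 := by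
  constructor
  · intro h x hu hv hw
    rw [det3_eq] at h
    refine Matrix.eq_zero_of_mulVec_eq_zero h ?_
    funext i
    fin_cases i
    · simpa [Matrix.mulVec] using hu
    · simpa [Matrix.mulVec] using hv
    · simpa [Matrix.mulVec] using hw
  · intro h h0
    rw [det3_eq] at h0
    obtain ⟨x, hx, hM⟩ := Matrix.exists_mulVec_eq_zero_iff.mpr h0
    refine hx (h x ?_ ?_ ?_)
    · simpa [Matrix.mulVec] using congrFun hM 0
    · simpa [Matrix.mulVec] using congrFun hM 1
    · simpa [Matrix.mulVec] using congrFun hM 2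

/-- The linear relation between four vectors. -/
lemma relation (u v w t z : V) :
    det3 v w t * (u ⬝ᵥ z) - det3 u w t * (v ⬝ᵥ z) + det3 u v t * (w ⬝ᵥ z)
      - det3 u v w * (t ⬝ᵥ z) = 0 := by
  simp only [dot3, det3]
  ring

lemma dot_self_pos {q : V} (hq : q ≠ 0) : 0 < q ⬝ᵥ q := by
  rw [dot3]
  by_contra h
  refine hq ?_
  have s0 := mul_self_nonneg (q 0)
  have s1 := mul_self_nonneg (q 1)
  have s2 := mul_self_nonneg (q 2)
  have h0 : q 0 = 0 := mul_self_eq_zero.mp (by linarith)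
  have h1 : q 1 = 0 := mul_self_eq_zero.mp (by linarith)
  have h2 : q 2 = 0 := mul_self_eq_zero.mp (by linarith)
  funext i
  fin_cases i
  · exact h0
  · exact h1
  · exact h2

/-- The cross product. -/
def crs (p q : V) : V := ![p 1 * q 2 - p 2 * q 1, p 2 * q 0 - p 0 * q 2, p 0 * q 1 - p 1 * q 0]

lemma dot_crs_left (p q : V) : p ⬝ᵥ crs p q = 0 := by
  rw [dot3]
  simp [crs]
  ring

lemma dot_crs_right (p q : V) : q ⬝ᵥ crs p q = 0 := by
  rw [dot3]
  simp [crs]
  ring

/-- If the cross product vanishes, the vectors are proportional. -/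
lemma par {p q : V} (hq : q ≠ 0) (h : crs p q = 0) : p = ((p ⬝ᵥ q) / (q ⬝ᵥ q)) • q := by
  have hqq := dot_self_pos hq
  have h0 : p 1 * q 2 - p 2 * q 1 = 0 := by simpa [crs] using congrFun h 0
  have h1 : p 2 * q 0 - p 0 * q 2 = 0 := by simpa [crs] using congrFun h 1
  have h2 : p 0 * q 1 - p 1 * q 0 = 0 := by simpa [crs] using congrFun h 2
  funext i
  rw [Pi.smul_apply, smul_eq_mul, div_mul_eq_mul_div, eq_div_iff hqq.ne', dot3, dot3]
  fin_cases i
  · simp only [Fin.zero_eta, Fin.isValue]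
    linear_combination q 1 * h2 - q 2 * h1
  · simp only [Fin.mk_one, Fin.isValue]
    linear_combination q 2 * h0 - q 0 * h2
  · simp only [Fin.reduceFinMk, Fin.isValue]
    linear_combination q 0 * h1 - q 1 * h0

/-- A vector orthogonal to two vectors is proportional to their cross product. -/
lemma crs_crs {p a b : V} (ha : a ⬝ᵥ p = 0) (hb : b ⬝ᵥ p = 0) : crs p (crs a b) = 0 := by
  rw [dot3] at ha hb
  funext i
  fin_cases i
  · simp [crs]
    linear_combination a 0 * hb - b 0 * ha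
  · simp [crs]
    linear_combination a 1 * hb - b 1 * ha
  · simp [crs]
    linear_combination a 2 * hb - b 2 * ha

/-! ### Faces are given by signs -/

section Faces

variable {n : ℕ} {a : Fin n → V}

lemma component_eq {x : V} (hx : x ∈ offLines a) :
    connectedComponentIn (offLines a) x = {y | ∀ i, 0 < (a i ⬝ᵥ x) * (a i ⬝ᵥ y)} := by
  apply Set.Subset.antisymm
  · intro y hy i
    by_contra hneg
    have hpre : IsPreconnected (connectedComponentIn (offLines a) x) :=
      isPreconnected_connectedComponentIn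
    have hxm := mem_connectedComponentIn hx
    have hyo : y ∈ offLines a := connectedComponentIn_subset _ _ hy
    have hcont : ContinuousOn (fun z : V => (a i ⬝ᵥ x) * (a i ⬝ᵥ z))
        (connectedComponentIn (offLines a) x) :=
      (continuous_const.mul (dot_cont (a i))).continuousOn
    have h0 : (0 : ℝ) ∈ Set.Icc ((a i ⬝ᵥ x) * (a i ⬝ᵥ y)) ((a i ⬝ᵥ x) * (a i ⬝ᵥ x)) :=
      ⟨not_lt.mp hneg, mul_self_nonneg _⟩
    obtain ⟨z, hz, hz0⟩ := hpre.intermediate_value hy hxm hcont h0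
    have hzo : z ∈ offLines a := connectedComponentIn_subset _ _ hz
    exact (mul_ne_zero (hx i) (hzo i)) hz0
  · have hconv : Convex ℝ {y : V | ∀ i, 0 < (a i ⬝ᵥ x) * (a i ⬝ᵥ y)} := by
      intro y hy z hz s t hs ht hst i
      have h1 := hy i
      have h2 := hz i
      rw [dotProduct_add, dotProduct_smul, dotProduct_smul, smul_eq_mul, smul_eq_mul]
      rcases hs.eq_or_lt with h | h
      · have : t = 1 := by linarith
        subst this
        rw [← h]
        simpa using h2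
      · nlinarith [mul_pos h h1, mul_nonneg ht h2.le]
    refine hconv.isPreconnected.subset_connectedComponentIn ?_ ?_
    · intro i
      exact mul_self_pos.mpr (hx i)
    · intro y hy i h0
      have := hy i
      rw [h0, mul_zero] at this
      exact lt_irrefl _ this

lemma mem_face {x : V} (hx : x ∈ offLines a) (y : V) :
    y ∈ face a x ↔ (∀ i, 0 < (a i ⬝ᵥ x) * (a i ⬝ᵥ y)) ∨
      (∀ i, (a i ⬝ᵥ x) * (a i ⬝ᵥ y) < 0) := by
  simp only [face, component_eq hx, Set.mem_ofPred_eq, dotProduct_neg, mul_neg]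
  refine or_congr Iff.rfl (forall_congr' fun i => ?_)
  constructor <;> intro h <;> linarith

/-- Vectors in the closure of a face. -/
lemma closure_face {x y : V} (hx : x ∈ offLines a) (hy : y ∈ closure (face a x)) :
    (∀ i, 0 ≤ (a i ⬝ᵥ x) * (a i ⬝ᵥ y)) ∨ (∀ i, (a i ⬝ᵥ x) * (a i ⬝ᵥ y) ≤ 0) := by
  have hcl : IsClosed ({y : V | ∀ i, 0 ≤ (a i ⬝ᵥ x) * (a i ⬝ᵥ y)} ∪
      {y : V | ∀ i, (a i ⬝ᵥ x) * (a i ⬝ᵥ y) ≤ 0}) := by
    refine IsClosed.union ?_ ?_
    · simp only [Set.ofPred_forall]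
      exact isClosed_iInter fun i =>
        isClosed_le continuous_const (continuous_const.mul (dot_cont (a i)))
    · simp only [Set.ofPred_forall]
      exact isClosed_iInter fun i =>
        isClosed_le (continuous_const.mul (dot_cont (a i))) continuous_const
  have hsub : face a x ⊆ {y : V | ∀ i, 0 ≤ (a i ⬝ᵥ x) * (a i ⬝ᵥ y)} ∪
      {y : V | ∀ i, (a i ⬝ᵥ x) * (a i ⬝ᵥ y) ≤ 0} := by
    intro z hz
    rcases (mem_face hx z).mp hz with h | h
    · exact Or.inl fun i => (h i).le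
    · exact Or.inr fun i => (h i).le
  exact closure_minimal hsub hcl hy

lemma mem_closure_face {x y : V} (hx : x ∈ offLines a)
    (hy : ∀ i, 0 ≤ (a i ⬝ᵥ x) * (a i ⬝ᵥ y)) : y ∈ closure (face a x) := by
  have hlim : Tendsto (fun t : ℝ => y + t • x) (𝓝[>] 0) (𝓝 (y + (0 : ℝ) • x)) := by
    refine Tendsto.mono_left ?_ nhdsWithin_le_nhds
    exact (continuous_const.add (continuous_id.smul continuous_const)).tendsto 0
  rw [zero_smul, add_zero] at hlim
  refine mem_closure_of_tendsto hlim ?_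
  filter_upwards [self_mem_nhdsWithin] with t ht
  refine (mem_face hx _).mpr (Or.inl fun i => ?_)
  rw [dotProduct_add, dotProduct_smul, smul_eq_mul]
  have h1 := hy i
  have h2 : 0 < (a i ⬝ᵥ x) * (a i ⬝ᵥ x) := mul_self_pos.mpr (hx i)
  have h3 := mul_pos (show (0 : ℝ) < t from ht) h2
  nlinarith

/-- A side has a point which lies strictly on the face side of all the other lines. -/
lemma side_point (hd : ∀ i j, i ≠ j → ∀ c : ℝ, a i ≠ c • a j) (h0 : ∀ i, a i ≠ 0) {x : V}
    (hx : x ∈ offLines a) {i : Fin n} (hi : IsSide a (face a x) i) :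
    ∃ z : V, a i ⬝ᵥ z = 0 ∧ ∀ j, j ≠ i → 0 < (a j ⬝ᵥ x) * (a j ⬝ᵥ z) := by
  obtain ⟨u, hu, v, hv, hli, hiu, hiv⟩ := hi
  -- a vector of the closure, up to its sign, lies in the closure of the cone of `x`
  have key : ∀ w ∈ closure (face a x), ∃ e : ℝ, e ≠ 0 ∧ ∀ j, 0 ≤ (a j ⬝ᵥ x) * (e * (a j ⬝ᵥ w)) := by
    intro w hw
    rcases closure_face hx hw with h | h
    · exact ⟨1, one_ne_zero, fun j => by simpa using h j⟩
    · exact ⟨-1, by norm_num, fun j => by have := h j; linarith⟩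
  obtain ⟨e, he, heu⟩ := key u hu
  obtain ⟨f, hf, hfv⟩ := key v hv
  refine ⟨e • u + f • v, ?_, ?_⟩
  · rw [dotProduct_add, dotProduct_smul, dotProduct_smul, hiu, hiv]
    simp
  · intro j hji
    rw [dotProduct_add, dotProduct_smul, dotProduct_smul, smul_eq_mul, smul_eq_mul, mul_add]
    have h1 := heu j
    have h2 := hfv j
    by_contra hneg
    have h3 : (a j ⬝ᵥ x) * (e * (a j ⬝ᵥ u)) = 0 := by linarith
    have h4 : (a j ⬝ᵥ x) * (f * (a j ⬝ᵥ v)) = 0 := by linarith
    have hju : a j ⬝ᵥ u = 0 := by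
      rcases mul_eq_zero.mp h3 with h | h
      · exact absurd h (hx j)
      · exact (mul_eq_zero.mp h).resolve_left he
    have hjv : a j ⬝ᵥ v = 0 := by
      rcases mul_eq_zero.mp h4 with h | h
      · exact absurd h (hx j)
      · exact (mul_eq_zero.mp h).resolve_left hf
    by_cases hc : crs (a i) (a j) = 0
    · exact hd i j hji.symm _ (par (h0 j) hc)
    · have h5 := par hc (crs_crs hiu hju)
      have h6 := par hc (crs_crs hiv hjv)
      rw [LinearIndependent.pair_iff] at hli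
      set w := crs (a i) (a j) with hw
      set c := (u ⬝ᵥ w) / (w ⬝ᵥ w)
      set d := (v ⬝ᵥ w) / (w ⬝ᵥ w)
      have h7 := hli d (-c) (by rw [h5, h6, smul_smul, smul_smul, ← add_smul]; ring_nf; simp)
      have h8 : d = 0 := h7.1
      have h9 := hli 0 1 (by rw [h6, h8]; simp)
      exact one_ne_zero h9.2

lemma isSide_of_point {x z : V} (hx : x ∈ offLines a) {i : Fin n} (h0 : a i ≠ 0)
    (hz0 : z ≠ 0) (hz : a i ⬝ᵥ z = 0) (hj : ∀ j, j ≠ i → 0 < (a j ⬝ᵥ x) * (a j ⬝ᵥ z)) :
    IsSide a (face a x) i := by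
  have hw0 : crs (a i) z ≠ 0 := by
    intro h
    have h1 := par hz0 h
    rw [hz] at h1
    exact h0 (by rw [h1]; simp)
  have hww := dot_self_pos hw0
  -- a small step along the line
  have hev : ∀ᶠ t : ℝ in 𝓝[>] 0, ∀ j, j ≠ i →
      0 < (a j ⬝ᵥ x) * (a j ⬝ᵥ (z + t • crs (a i) z)) := by
    rw [Filter.eventually_all]
    intro j
    by_cases hji : j = i
    · exact Filter.Eventually.of_forall fun t h => absurd hji h
    · have hc : Tendsto (fun t : ℝ => (a j ⬝ᵥ x) * (a j ⬝ᵥ (z + t • crs (a i) z))) (𝓝[>] 0)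
          (𝓝 ((a j ⬝ᵥ x) * (a j ⬝ᵥ (z + (0 : ℝ) • crs (a i) z)))) := by
        refine Tendsto.mono_left ?_ nhdsWithin_le_nhds
        have : Continuous fun t : ℝ => (a j ⬝ᵥ x) * (a j ⬝ᵥ (z + t • crs (a i) z)) := by
          refine continuous_const.mul ((dot_cont (a j)).comp ?_)
          exact continuous_const.add (continuous_id.smul continuous_const)
        exact this.tendsto 0
      rw [zero_smul, add_zero] at hc
      filter_upwards [hc.eventually_const_lt (hj j hji)] with t ht _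
      exact ht
  obtain ⟨t, ht, ht0⟩ := (hev.and self_mem_nhdsWithin).exists
  have ht0' : (0 : ℝ) < t := ht0
  have hzt : a i ⬝ᵥ (z + t • crs (a i) z) = 0 := by
    rw [dotProduct_add, dotProduct_smul, hz, dot_crs_left]
    simp
  refine ⟨z, ?_, z + t • crs (a i) z, ?_, ?_, hz, hzt⟩
  · refine mem_closure_face hx fun j => ?_
    by_cases hji : j = i
    · rw [hji, hz, mul_zero]
    · exact (hj j hji).le
  · refine mem_closure_face hx fun j => ?_
    by_cases hji : j = i
    · rw [hji, hzt, mul_zero]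
    · exact (ht j hji).le
  · rw [LinearIndependent.pair_iff]
    intro p q hpq
    have h1 : crs (a i) z ⬝ᵥ (p • z + q • (z + t • crs (a i) z)) = 0 := by
      rw [hpq]
      simp
    have h2 : crs (a i) z ⬝ᵥ z = 0 := by
      rw [dotProduct_comm]
      exact dot_crs_right _ _
    rw [dotProduct_add, dotProduct_smul, dotProduct_smul, dotProduct_add, dotProduct_smul, h2]
      at h1
    simp only [smul_eq_mul, mul_zero, zero_add] at h1
    have hq : q = 0 := by
      rcases mul_eq_zero.mp h1 with h | h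
      · exact h
      · rcases mul_eq_zero.mp h with h | h
        · exact absurd h ht0'.ne'
        · exact absurd h hww.ne'
    refine ⟨?_, hq⟩
    rw [hq, zero_smul, add_zero] at hpq
    exact (smul_eq_zero.mp hpq).resolve_right hz0

end Faces

/-! ### Two faces have at most four common sides -/

/-- Three real numbers are neither all positive nor all negative. -/
def Mixed (p q r : ℝ) : Prop := ¬(0 < p ∧ 0 < q ∧ 0 < r) ∧ ¬(p < 0 ∧ q < 0 ∧ r < 0)

lemma sgn_pos {c p q : ℝ} (h1 : 0 < c * p) (h2 : 0 < p * q) : 0 < c * q := by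
  by_contra h
  have h3 := mul_pos h1 h2
  have h4 : c * p * (p * q) = p * p * (c * q) := by ring
  have h5 := mul_self_nonneg p
  nlinarith

lemma sgn_neg {c p q : ℝ} (h1 : c * p < 0) (h2 : 0 < p * q) : c * q < 0 := by
  have := sgn_pos (c := -c) (p := p) (q := q) (by linarith) h2
  linarith

lemma mixed_of_sum {c1 c2 c3 p1 p2 p3 q1 q2 q3 : ℝ} (h1 : 0 < p1 * q1) (h2 : 0 < p2 * q2)
    (h3 : 0 < p3 * q3) (hs : c1 * q1 + c2 * q2 + c3 * q3 = 0) :
    Mixed (c1 * p1) (c2 * p2) (c3 * p3) := by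
  constructor
  · rintro ⟨a1, a2, a3⟩
    have := sgn_pos a1 h1
    have := sgn_pos a2 h2
    have := sgn_pos a3 h3
    linarith
  · rintro ⟨a1, a2, a3⟩
    have := sgn_neg a1 h1
    have := sgn_neg a2 h2
    have := sgn_neg a3 h3
    linarith

lemma four_signs {d1 d2 d3 d4 : ℝ} (n1 : d1 ≠ 0) (n2 : d2 ≠ 0) (n3 : d3 ≠ 0) (n4 : d4 ≠ 0)
    (m1 : Mixed d2 d3 d4) (m2 : Mixed d1 d3 d4) (m3 : Mixed d1 d2 d4) (m4 : Mixed d1 d2 d3) :
    0 < d1 * d2 * d3 * d4 := by
  unfold Mixed at m1 m2 m3 m4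
  rcases lt_or_gt_of_ne n1 with a1 | a1 <;> rcases lt_or_gt_of_ne n2 with a2 | a2 <;>
    rcases lt_or_gt_of_ne n3 with a3 | a3 <;> rcases lt_or_gt_of_ne n4 with a4 | a4 <;>
    first
      | exact (m1.1 (And.intro a2 (And.intro a3 a4))).elim
      | exact (m1.2 (And.intro a2 (And.intro a3 a4))).elim
      | exact (m2.1 (And.intro a1 (And.intro a3 a4))).elim
      | exact (m2.2 (And.intro a1 (And.intro a3 a4))).elim
      | exact (m3.1 (And.intro a1 (And.intro a2 a4))).elim
      | exact (m3.2 (And.intro a1 (And.intro a2 a4))).elim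
      | exact (m4.1 (And.intro a1 (And.intro a2 a3))).elim
      | exact (m4.2 (And.intro a1 (And.intro a2 a3))).elim
      | (have e1 : 0 < (d1 * d2) * (d3 * d4) := mul_pos (mul_pos a1 a2) (mul_pos_of_neg_of_neg a3 a4)
         linarith [mul_assoc (d1 * d2) d3 d4])
      | (have e1 : 0 < (d1 * d2) * (d3 * d4) := mul_pos (mul_pos_of_neg_of_neg a1 a2) (mul_pos a3 a4)
         linarith [mul_assoc (d1 * d2) d3 d4])
      | (have e1 : 0 < (d1 * d2) * (d3 * d4) := mul_pos_of_neg_of_neg (mul_neg_of_neg_of_pos a1 a2) (mul_neg_of_neg_of_pos a3 a4)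
         linarith [mul_assoc (d1 * d2) d3 d4])
      | (have e1 : 0 < (d1 * d2) * (d3 * d4) := mul_pos_of_neg_of_neg (mul_neg_of_neg_of_pos a1 a2) (mul_neg_of_pos_of_neg a3 a4)
         linarith [mul_assoc (d1 * d2) d3 d4])
      | (have e1 : 0 < (d1 * d2) * (d3 * d4) := mul_pos_of_neg_of_neg (mul_neg_of_pos_of_neg a1 a2) (mul_neg_of_neg_of_pos a3 a4)
         linarith [mul_assoc (d1 * d2) d3 d4])
      | (have e1 : 0 < (d1 * d2) * (d3 * d4) := mul_pos_of_neg_of_neg (mul_neg_of_pos_of_neg a1 a2) (mul_neg_of_pos_of_neg a3 a4)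
         linarith [mul_assoc (d1 * d2) d3 d4])

lemma opp_signs {d1 d2 dk e1 e2 ek : ℝ} (n1 : d1 ≠ 0) (n2 : d2 ≠ 0) (m : Mixed d1 d2 dk)
    (m' : Mixed e1 e2 ek) (h1 : 0 < d1 * e1) (h2 : 0 < d2 * e2) (hk : dk * ek < 0) :
    d1 * d2 < 0 := by
  unfold Mixed at m m'
  rcases lt_or_gt_of_ne n1 with a1 | a1 <;> rcases lt_or_gt_of_ne n2 with a2 | a2
  · exfalso
    have b1 : e1 < 0 := by nlinarith
    have b2 : e2 < 0 := by nlinarith
    rcases lt_trichotomy dk 0 with c | c | c
    · exact m.2 ⟨a1, a2, c⟩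
    · rw [c] at hk; simp at hk
    · exact m'.2 ⟨b1, b2, by nlinarith⟩
  · exact mul_neg_of_neg_of_pos a1 a2
  · exact mul_neg_of_pos_of_neg a1 a2
  · exfalso
    have b1 : 0 < e1 := by nlinarith
    have b2 : 0 < e2 := by nlinarith
    rcases lt_trichotomy dk 0 with c | c | c
    · exact m'.1 ⟨b1, b2, by nlinarith⟩
    · rw [c] at hk; simp at hk
    · exact m.1 ⟨a1, a2, c⟩

section Upper

variable {n : ℕ} {a : Fin n → V}

lemma simple_det (hs : IsSimple a) {i j k : Fin n} (hij : i ≠ j) (hik : i ≠ k) (hjk : j ≠ k) :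
    det3 (a i) (a j) (a k) ≠ 0 :=
  (det3_ne_zero_iff _ _ _).mpr (hs i j k hij hik hjk)

/-- `i` is a side of the face of `x`, witnessed by a point. -/
def SideAt (a : Fin n → V) (x : V) (i : Fin n) : Prop :=
  ∃ z : V, a i ⬝ᵥ z = 0 ∧ ∀ j, j ≠ i → 0 < (a j ⬝ᵥ x) * (a j ⬝ᵥ z)

lemma four_sides (hs : IsSimple a) {x : V} (hx : x ∈ offLines a) {i j k l : Fin n}
    (hij : i ≠ j) (hik : i ≠ k) (hil : i ≠ l) (hjk : j ≠ k) (hjl : j ≠ l) (hkl : k ≠ l)
    (si : SideAt a x i) (sj : SideAt a x j) (sk : SideAt a x k) (sl : SideAt a x l) :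
    0 < (det3 (a j) (a k) (a l) * (a i ⬝ᵥ x)) * (-det3 (a i) (a k) (a l) * (a j ⬝ᵥ x)) *
      (det3 (a i) (a j) (a l) * (a k ⬝ᵥ x)) * (-det3 (a i) (a j) (a k) * (a l ⬝ᵥ x)) := by
  have d1 := simple_det hs hjk hjl hkl
  have d2 := simple_det hs hik hil hkl
  have d3 := simple_det hs hij hil hjl
  have d4 := simple_det hs hij hik hjk
  refine four_signs (mul_ne_zero d1 (hx i)) (mul_ne_zero (neg_ne_zero.mpr d2) (hx j))
    (mul_ne_zero d3 (hx k)) (mul_ne_zero (neg_ne_zero.mpr d4) (hx l)) ?_ ?_ ?_ ?_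
  · obtain ⟨z, hz, hp⟩ := si
    refine mixed_of_sum (hp j hij.symm) (hp k hik.symm) (hp l hil.symm) ?_
    have := relation (a i) (a j) (a k) (a l) z
    rw [hz] at this
    linarith
  · obtain ⟨z, hz, hp⟩ := sj
    refine mixed_of_sum (hp i hij) (hp k hjk.symm) (hp l hjl.symm) ?_
    have := relation (a i) (a j) (a k) (a l) z
    rw [hz] at this
    linarith
  · obtain ⟨z, hz, hp⟩ := sk
    refine mixed_of_sum (hp i hik) (hp j hjk) (hp l hkl.symm) ?_
    have := relation (a i) (a j) (a k) (a l) z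
    rw [hz] at this
    linarith
  · obtain ⟨z, hz, hp⟩ := sl
    refine mixed_of_sum (hp i hil) (hp j hjl) (hp k hkl) ?_
    have := relation (a i) (a j) (a k) (a l) z
    rw [hz] at this
    linarith

/-- Four common sides: the product of the four relative signs is positive. -/
lemma four_common (hs : IsSimple a) {x y : V} (hx : x ∈ offLines a) (hy : y ∈ offLines a)
    {i j k l : Fin n} (hij : i ≠ j) (hik : i ≠ k) (hil : i ≠ l) (hjk : j ≠ k) (hjl : j ≠ l)
    (hkl : k ≠ l) (si : SideAt a x i ∧ SideAt a y i) (sj : SideAt a x j ∧ SideAt a y j)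
    (sk : SideAt a x k ∧ SideAt a y k) (sl : SideAt a x l ∧ SideAt a y l) :
    0 < ((a i ⬝ᵥ x) * (a i ⬝ᵥ y)) * ((a j ⬝ᵥ x) * (a j ⬝ᵥ y)) *
      ((a k ⬝ᵥ x) * (a k ⬝ᵥ y)) * ((a l ⬝ᵥ x) * (a l ⬝ᵥ y)) := by
  have h1 := four_sides hs hx hij hik hil hjk hjl hkl si.1 sj.1 sk.1 sl.1
  have h2 := four_sides hs hy hij hik hil hjk hjl hkl si.2 sj.2 sk.2 sl.2
  have h3 := mul_pos h1 h2
  have h4 : (det3 (a j) (a k) (a l) * (a i ⬝ᵥ x)) * (-det3 (a i) (a k) (a l) * (a j ⬝ᵥ x)) *
      (det3 (a i) (a j) (a l) * (a k ⬝ᵥ x)) * (-det3 (a i) (a j) (a k) * (a l ⬝ᵥ x)) *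
      ((det3 (a j) (a k) (a l) * (a i ⬝ᵥ y)) * (-det3 (a i) (a k) (a l) * (a j ⬝ᵥ y)) *
      (det3 (a i) (a j) (a l) * (a k ⬝ᵥ y)) * (-det3 (a i) (a j) (a k) * (a l ⬝ᵥ y))) =
      (det3 (a j) (a k) (a l) * det3 (a i) (a k) (a l) * det3 (a i) (a j) (a l) *
        det3 (a i) (a j) (a k)) ^ 2 *
      (((a i ⬝ᵥ x) * (a i ⬝ᵥ y)) * ((a j ⬝ᵥ x) * (a j ⬝ᵥ y)) *
      ((a k ⬝ᵥ x) * (a k ⬝ᵥ y)) * ((a l ⬝ᵥ x) * (a l ⬝ᵥ y))) := by ring
  rw [h4] at h3
  by_contra h5
  have := mul_nonpos_of_nonneg_of_nonpos (sq_nonneg (det3 (a j) (a k) (a l) *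
    det3 (a i) (a k) (a l) * det3 (a i) (a j) (a l) * det3 (a i) (a j) (a k))) (not_lt.mp h5)
  linarith

/-- Three common sides on which the relative signs are positive: no line separates. -/
lemma no_separation (hs : IsSimple a) {x y : V} (hx : x ∈ offLines a) (hy : y ∈ offLines a)
    {i j k : Fin n} (hij : i ≠ j) (hik : i ≠ k) (hjk : j ≠ k)
    (si : SideAt a x i ∧ SideAt a y i) (sj : SideAt a x j ∧ SideAt a y j)
    (sk : SideAt a x k ∧ SideAt a y k) (pi : 0 < (a i ⬝ᵥ x) * (a i ⬝ᵥ y))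
    (pj : 0 < (a j ⬝ᵥ x) * (a j ⬝ᵥ y)) (pk : 0 < (a k ⬝ᵥ x) * (a k ⬝ᵥ y)) (l : Fin n) :
    0 < (a l ⬝ᵥ x) * (a l ⬝ᵥ y) := by
  by_contra hl0
  have hl : (a l ⬝ᵥ x) * (a l ⬝ᵥ y) < 0 :=
    lt_of_le_of_ne (not_lt.mp hl0) (mul_ne_zero (hx l) (hy l))
  have hil : i ≠ l := by rintro rfl; exact hl0 pi
  have hjl : j ≠ l := by rintro rfl; exact hl0 pj
  have hkl : k ≠ l := by rintro rfl; exact hl0 pk
  have d1 := simple_det hs hjk hjl hkl
  have d2 := simple_det hs hik hil hkl
  have d3 := simple_det hs hij hil hjl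
  have d4 := simple_det hs hij hik hjk
  set c1 := det3 (a j) (a k) (a l) with hc1
  set c2 := -det3 (a i) (a k) (a l) with hc2
  set c3 := det3 (a i) (a j) (a l) with hc3
  set c4 := -det3 (a i) (a j) (a k) with hc4
  have n1 : c1 ≠ 0 := d1
  have n2 : c2 ≠ 0 := neg_ne_zero.mpr d2
  have n3 : c3 ≠ 0 := d3
  have n4 : c4 ≠ 0 := neg_ne_zero.mpr d4
  have rel : ∀ z : V, c1 * (a i ⬝ᵥ z) + c2 * (a j ⬝ᵥ z) + c3 * (a k ⬝ᵥ z) + c4 * (a l ⬝ᵥ z) = 0 := by
    intro z
    have := relation (a i) (a j) (a k) (a l) z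
    rw [hc1, hc2, hc3, hc4]
    linarith
  have sq : ∀ {c p q : ℝ}, c ≠ 0 → 0 < p * q → 0 < (c * p) * (c * q) := by
    intro c p q hc h
    have : (c * p) * (c * q) = c ^ 2 * (p * q) := by ring
    rw [this]
    exact mul_pos (by positivity) h
  have sq' : ∀ {c p q : ℝ}, c ≠ 0 → p * q < 0 → (c * p) * (c * q) < 0 := by
    intro c p q hc h
    have : (c * p) * (c * q) = c ^ 2 * (p * q) := by ring
    rw [this]
    exact mul_neg_of_pos_of_neg (by positivity) h
  have e1 : (c2 * (a j ⬝ᵥ x)) * (c3 * (a k ⬝ᵥ x)) < 0 := by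
    obtain ⟨⟨z, hz, hp⟩, ⟨w, hw, hq⟩⟩ := si
    refine opp_signs (mul_ne_zero n2 (hx j)) (mul_ne_zero n3 (hx k))
      (mixed_of_sum (hp j hij.symm) (hp k hik.symm) (hp l hil.symm) (c3 := c4) ?_)
      (mixed_of_sum (hq j hij.symm) (hq k hik.symm) (hq l hil.symm) (c1 := c2) (c2 := c3)
        (c3 := c4) ?_) (sq n2 pj) (sq n3 pk) (sq' n4 hl)
    · have := rel z
      rw [hz] at this
      linarith
    · have := rel w
      rw [hw] at this
      linarith
  have e2 : (c1 * (a i ⬝ᵥ x)) * (c3 * (a k ⬝ᵥ x)) < 0 := by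
    obtain ⟨⟨z, hz, hp⟩, ⟨w, hw, hq⟩⟩ := sj
    refine opp_signs (mul_ne_zero n1 (hx i)) (mul_ne_zero n3 (hx k))
      (mixed_of_sum (hp i hij) (hp k hjk.symm) (hp l hjl.symm) (c3 := c4) ?_)
      (mixed_of_sum (hq i hij) (hq k hjk.symm) (hq l hjl.symm) (c1 := c1) (c2 := c3)
        (c3 := c4) ?_) (sq n1 pi) (sq n3 pk) (sq' n4 hl)
    · have := rel z
      rw [hz] at this
      linarith
    · have := rel w
      rw [hw] at this
      linarith
  have e3 : (c1 * (a i ⬝ᵥ x)) * (c2 * (a j ⬝ᵥ x)) < 0 := by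
    obtain ⟨⟨z, hz, hp⟩, ⟨w, hw, hq⟩⟩ := sk
    refine opp_signs (mul_ne_zero n1 (hx i)) (mul_ne_zero n2 (hx j))
      (mixed_of_sum (hp i hik) (hp j hjk) (hp l hkl.symm) (c3 := c4) ?_)
      (mixed_of_sum (hq i hik) (hq j hjk) (hq l hkl.symm) (c1 := c1) (c2 := c2)
        (c3 := c4) ?_) (sq n1 pi) (sq n2 pj) (sq' n4 hl)
    · have := rel z
      rw [hz] at this
      linarith
    · have := rel w
      rw [hw] at this
      linarith
  have f1 := mul_pos_of_neg_of_neg e1 e2
  have f2 := mul_neg_of_pos_of_neg f1 e3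
  have f3 : (c2 * (a j ⬝ᵥ x)) * (c3 * (a k ⬝ᵥ x)) * ((c1 * (a i ⬝ᵥ x)) * (c3 * (a k ⬝ᵥ x))) *
      ((c1 * (a i ⬝ᵥ x)) * (c2 * (a j ⬝ᵥ x))) =
      ((c1 * (a i ⬝ᵥ x)) * (c2 * (a j ⬝ᵥ x)) * (c3 * (a k ⬝ᵥ x))) ^ 2 := by ring
  rw [f3] at f2
  exact absurd f2 (not_lt.mpr (sq_nonneg _))

lemma face_eq_of_signs {x y : V} (hx : x ∈ offLines a) (hy : y ∈ offLines a)
    (h : (∀ i, 0 < (a i ⬝ᵥ x) * (a i ⬝ᵥ y)) ∨ (∀ i, (a i ⬝ᵥ x) * (a i ⬝ᵥ y) < 0)) :
    face a x = face a y := by
  have s1 : ∀ {p q r : ℝ}, 0 < p * q → 0 < p * r → 0 < q * r := fun h1 h2 =>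
    sgn_pos (by rw [mul_comm]; exact h1) h2
  have s2 : ∀ {p q r : ℝ}, 0 < p * q → p * r < 0 → q * r < 0 := fun {p q r} h1 h2 => by
    have := s1 (p := p) (q := q) (r := -r) h1 (by linarith)
    linarith
  have s3 : ∀ {p q r : ℝ}, p * q < 0 → 0 < p * r → q * r < 0 := fun {p q r} h1 h2 => by
    have := s1 (p := p) (q := -q) (r := r) (by linarith) h2
    linarith
  have s4 : ∀ {p q r : ℝ}, p * q < 0 → p * r < 0 → 0 < q * r := fun {p q r} h1 h2 => by
    have := s1 (p := p) (q := -q) (r := -r) (by linarith) (by linarith)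
    linarith
  have cm : ∀ i, (a i ⬝ᵥ y) * (a i ⬝ᵥ x) = (a i ⬝ᵥ x) * (a i ⬝ᵥ y) := fun i => mul_comm _ _
  ext z
  rw [mem_face hx, mem_face hy]
  rcases h with h | h
  · constructor
    · rintro (g | g)
      · exact Or.inl fun i => s1 (h i) (g i)
      · exact Or.inr fun i => s2 (h i) (g i)
    · rintro (g | g)
      · exact Or.inl fun i => s1 (by rw [cm]; exact h i) (g i)
      · exact Or.inr fun i => s2 (by rw [cm]; exact h i) (g i)
  · constructor
    · rintro (g | g)
      · exact Or.inr fun i => s3 (h i) (g i)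
      · exact Or.inl fun i => s4 (h i) (g i)
    · rintro (g | g)
      · exact Or.inr fun i => s3 (by rw [cm]; exact h i) (g i)
      · exact Or.inl fun i => s4 (by rw [cm]; exact h i) (g i)

lemma neg_mem_off {y : V} (hy : y ∈ offLines a) : -y ∈ offLines a := fun i => by
  rw [dotProduct_neg]
  exact neg_ne_zero.mpr (hy i)

lemma SideAt.neg {y : V} {i : Fin n} (h : SideAt a y i) : SideAt a (-y) i := by
  obtain ⟨z, hz, hp⟩ := h
  refine ⟨-z, by rw [dotProduct_neg, hz, neg_zero], fun j hj => ?_⟩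
  rw [dotProduct_neg, dotProduct_neg, neg_mul_neg]
  exact hp j hj

lemma common_le (ha : IsArrangement a) (hs : IsSimple a) {F G : Set V} (hF : IsFace a F)
    (hG : IsFace a G) (hne : F ≠ G) : ({i | IsSide a F i} ∩ {i | IsSide a G i}).ncard ≤ 4 := by
  classical
  obtain ⟨x, hx, rfl⟩ := hF
  obtain ⟨y, hy, rfl⟩ := hG
  by_contra hcon
  set S : Set (Fin n) := {i | IsSide a (face a x) i} ∩ {i | IsSide a (face a y) i} with hS
  have hc : 5 ≤ S.toFinset.card := by
    rw [← Set.ncard_eq_toFinset_card']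
    omega
  obtain ⟨T, hTS, hT⟩ := Finset.exists_subset_card_eq hc
  let e : Fin 5 → Fin n := fun m => ((T.equivFinOfCardEq hT).symm m : Fin n)
  have hinj : Function.Injective e := by
    intro p q hpq
    exact (T.equivFinOfCardEq hT).symm.injective (Subtype.ext hpq)
  have hside : ∀ m, SideAt a x (e m) ∧ SideAt a y (e m) := by
    intro m
    have h1 : e m ∈ S := by
      have := hTS ((T.equivFinOfCardEq hT).symm m).2
      simpa using this
    exact ⟨side_point ha.2.2.1 ha.2.1 hx h1.1, side_point ha.2.2.1 ha.2.1 hy h1.2⟩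
  have hn : ∀ p q : Fin 5, p ≠ q → e p ≠ e q := fun p q h => hinj.ne h
  have four := fun (p q r t : Fin 5) (h1 : p ≠ q) (h2 : p ≠ r) (h3 : p ≠ t) (h4 : q ≠ r)
      (h5 : q ≠ t) (h6 : r ≠ t) => four_common hs hx hy (hn p q h1) (hn p r h2) (hn p t h3)
        (hn q r h4) (hn q t h5) (hn r t h6) (hside p) (hside q) (hside r) (hside t)
  have comb : ∀ {p q r s t : ℝ}, 0 < p * r * s * t → 0 < q * r * s * t → 0 < p * q := by
    intro p q r s t h1 h2
    have h3 := mul_pos h1 h2
    have h4 : p * r * s * t * (q * r * s * t) = (r * s * t) ^ 2 * (p * q) := by ring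
    rw [h4] at h3
    by_contra h5
    have := mul_nonpos_of_nonneg_of_nonpos (sq_nonneg (r * s * t)) (not_lt.mp h5)
    linarith
  have p01 := comb (four 0 2 3 4 (by decide) (by decide) (by decide) (by decide) (by decide)
    (by decide)) (four 1 2 3 4 (by decide) (by decide) (by decide) (by decide) (by decide)
    (by decide))
  have p02 := comb (four 0 1 3 4 (by decide) (by decide) (by decide) (by decide) (by decide)
    (by decide)) (four 2 1 3 4 (by decide) (by decide) (by decide) (by decide) (by decide)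
    (by decide))
  have r0 := mul_ne_zero (hx (e 0)) (hy (e 0))
  rcases lt_or_gt_of_ne r0 with h0 | h0
  · -- replace `y` by `-y`
    have h1 : (a (e 1) ⬝ᵥ x) * (a (e 1) ⬝ᵥ y) < 0 := by
      by_contra h
      have := mul_nonpos_of_nonpos_of_nonneg h0.le (not_lt.mp h)
      linarith
    have h2 : (a (e 2) ⬝ᵥ x) * (a (e 2) ⬝ᵥ y) < 0 := by
      by_contra h
      have := mul_nonpos_of_nonpos_of_nonneg h0.le (not_lt.mp h)
      linarith
    have hall := no_separation hs hx (neg_mem_off hy) (hn 0 1 (by decide)) (hn 0 2 (by decide))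
      (hn 1 2 (by decide)) ⟨(hside 0).1, (hside 0).2.neg⟩ ⟨(hside 1).1, (hside 1).2.neg⟩
      ⟨(hside 2).1, (hside 2).2.neg⟩ (by rw [dotProduct_neg]; linarith)
      (by rw [dotProduct_neg]; linarith) (by rw [dotProduct_neg]; linarith)
    refine hne (face_eq_of_signs hx hy (Or.inr fun i => ?_))
    have := hall i
    rw [dotProduct_neg] at this
    linarith
  · have h1 : 0 < (a (e 1) ⬝ᵥ x) * (a (e 1) ⬝ᵥ y) := by
      by_contra h
      have := mul_nonpos_of_nonneg_of_nonpos h0.le (not_lt.mp h)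
      linarith
    have h2 : 0 < (a (e 2) ⬝ᵥ x) * (a (e 2) ⬝ᵥ y) := by
      by_contra h
      have := mul_nonpos_of_nonneg_of_nonpos h0.le (not_lt.mp h)
      linarith
    have hall := no_separation hs hx hy (hn 0 1 (by decide)) (hn 0 2 (by decide))
      (hn 1 2 (by decide)) (hside 0) (hside 1) (hside 2) h0 h1 h2
    exact hne (face_eq_of_signs hx hy (Or.inl hall))

end Upper

/-- A Bonferroni inequality. -/
lemma bonferroni {α ι : Type*} [DecidableEq α] [DecidableEq ι] (L : ι → Finset α) (s : Finset ι)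
    (h : ∀ i ∈ s, ∀ j ∈ s, i ≠ j → (L i ∩ L j).card ≤ 4) :
    ∑ i ∈ s, (L i).card ≤ (s.biUnion L).card + 2 * s.card * (s.card - 1) := by
  induction s using Finset.induction_on with
  | empty => simp
  | insert k s hk ih =>
    have ih' := ih fun i hi j hj => h i (Finset.mem_insert_of_mem hi) j (Finset.mem_insert_of_mem hj)
    rw [Finset.sum_insert hk, Finset.biUnion_insert, Finset.card_insert_of_notMem hk]
    have h1 : (L k ∩ s.biUnion L).card ≤ 4 * s.card := by
      rw [Finset.inter_biUnion]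
      refine Finset.card_biUnion_le.trans ?_
      rw [mul_comm, ← smul_eq_mul]
      refine Finset.sum_le_card_nsmul _ _ _ fun j hj => ?_
      exact h k (Finset.mem_insert_self _ _) j (Finset.mem_insert_of_mem hj)
        (fun e => hk (e ▸ hj))
    have h2 := Finset.card_union_add_card_inter (L k) (s.biUnion L)
    have h3 : ∀ c : ℕ, 2 * (c + 1) * (c + 1 - 1) = 2 * c * (c - 1) + 4 * c := by
      intro c
      cases c with
      | zero => rfl
      | succ m =>
        simp only [Nat.add_sub_cancel]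
        ring
    rw [h3]
    omega

/-- The upper bound. -/
lemma upper {n k : ℕ} (hk : 1 ≤ k) {a : Fin n → V} (ha : IsArrangement a) (hs : IsSimple a)
    (F : Fin k → Set V) (hF : Function.Injective F) (hf : ∀ j, IsFace a (F j)) :
    (∑ j, (sides a (F j) : ℤ)) - n ≤ 2 * k * (k - 1) := by
  classical
  have h1 := bonferroni (fun j => ({i | IsSide a (F j) i} : Set (Fin n)).toFinset)
    (Finset.univ : Finset (Fin k)) (by
      intro i _ j _ hij
      rw [← Set.toFinset_inter, ← Set.ncard_eq_toFinset_card']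
      exact common_le ha hs (hf i) (hf j) (hF.ne hij))
  have h2 : (Finset.univ.biUnion fun j => ({i | IsSide a (F j) i} : Set (Fin n)).toFinset).card
      ≤ n := (Finset.card_le_univ _).trans (by simp)
  have h3 : ∑ j, sides a (F j) ≤ n + 2 * k * (k - 1) := by
    simp only [sides, Set.ncard_eq_toFinset_card']
    simp only [Finset.card_univ, Fintype.card_fin] at h1
    omega
  have h4 : ((∑ j, sides a (F j) : ℕ) : ℤ) ≤ ((n + 2 * k * (k - 1) : ℕ) : ℤ) := by
    exact_mod_cast h3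
  push_cast [Nat.cast_sub hk] at h4
  linarith

/-! ### The construction: common tangents of small discs -/

/-- Index set of the common tangents: a pair `i < j` of discs and two binary choices. -/
abbrev E (k : ℕ) := (j : Fin k) × (Fin (j : ℕ) × Bool × Bool)

/-- The larger disc. -/
def hi {k : ℕ} (e : E k) : ℕ := e.1

/-- The smaller disc. -/
def lo {k : ℕ} (e : E k) : ℕ := e.2.1

lemma lo_lt_hi {k : ℕ} (e : E k) : lo e < hi e := e.2.1.2

lemma hi_lt {k : ℕ} (e : E k) : hi e < k := e.1.2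

lemma card_E (k : ℕ) : Fintype.card (E k) = 2 * k * (k - 1) := by
  rw [Fintype.card_sigma]
  simp only [Fintype.card_prod, Fintype.card_fin, Fintype.card_bool]
  rw [Fin.sum_univ_eq_sum_range (fun j => j * (2 * 2)) k, ← Finset.sum_mul]
  have := Finset.sum_range_id_mul_two k
  nlinarith

/-- The centres of the discs. -/
def ctr (i : ℕ) : V := ![(i : ℝ), (i : ℝ) ^ 2, 1]

lemma one_le_abs_sub {i j : ℕ} (h : i ≠ j) : 1 ≤ |(i : ℝ) - j| := by
  have h1 : (1 : ℤ) ≤ |(i : ℤ) - j| := Int.one_le_abs (sub_ne_zero.mpr (by exact_mod_cast h))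
  have h2 : ((1 : ℤ) : ℝ) ≤ ((|(i : ℤ) - j| : ℤ) : ℝ) := by exact_mod_cast h1
  simpa using h2

lemma det_bound {m1 m2 u1 u2 w1 w2 d B : ℝ} (hm : m1 ^ 2 + m2 ^ 2 = 1) (hd : 0 ≤ d)
    (hu : |m1 * u1 + m2 * u2| ≤ d) (hw : |m1 * w1 + m2 * w2| ≤ d)
    (hu1 : |u1| ≤ B) (hu2 : |u2| ≤ B) (hw1 : |w1| ≤ B) (hw2 : |w2| ≤ B) :
    |u1 * w2 - u2 * w1| ≤ 4 * d * B := by
  have hB : 0 ≤ B := (abs_nonneg _).trans hu1
  have hm1 : |m1| ≤ 1 := by
    rw [← sq_le_one_iff_abs_le_one]
    nlinarith [sq_nonneg m2]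
  have hm2 : |m2| ≤ 1 := by
    rw [← sq_le_one_iff_abs_le_one]
    nlinarith [sq_nonneg m1]
  have key : u1 * w2 - u2 * w1 = (m1 * u1 + m2 * u2) * (m1 * w2 - m2 * w1) -
      (m1 * u2 - m2 * u1) * (m1 * w1 + m2 * w2) := by
    linear_combination (-(u1 * w2 - u2 * w1)) * hm
  have b1 : |m1 * w2 - m2 * w1| ≤ 2 * B := by
    calc |m1 * w2 - m2 * w1| ≤ |m1 * w2| + |m2 * w1| := abs_sub _ _
      _ = |m1| * |w2| + |m2| * |w1| := by rw [abs_mul, abs_mul]
      _ ≤ 1 * B + 1 * B := by gcongr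
      _ = 2 * B := by ring
  have b2 : |m1 * u2 - m2 * u1| ≤ 2 * B := by
    calc |m1 * u2 - m2 * u1| ≤ |m1 * u2| + |m2 * u1| := abs_sub _ _
      _ = |m1| * |u2| + |m2| * |u1| := by rw [abs_mul, abs_mul]
      _ ≤ 1 * B + 1 * B := by gcongr
      _ = 2 * B := by ring
  rw [key]
  calc _ ≤ |(m1 * u1 + m2 * u2) * (m1 * w2 - m2 * w1)| +
        |(m1 * u2 - m2 * u1) * (m1 * w1 + m2 * w2)| := abs_sub _ _
    _ = |m1 * u1 + m2 * u2| * |m1 * w2 - m2 * w1| +
        |m1 * u2 - m2 * u1| * |m1 * w1 + m2 * w2| := by rw [abs_mul, abs_mul]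
    _ ≤ d * (2 * B) + 2 * B * d := by gcongr
    _ = 4 * d * B := by ring

section Lines

variable (k : ℕ)

/-- The radius. -/
noncomputable def rad : ℝ := 1 / (16 * (k : ℝ) ^ 2)

variable {k}

/-- Squared distance of the two centres. -/
noncomputable def dist2 (e : E k) : ℝ :=
  ((hi e : ℝ) - lo e) ^ 2 + ((hi e : ℝ) ^ 2 - (lo e : ℝ) ^ 2) ^ 2

/-- Difference of the values at the two centres. -/
noncomputable def dv (e : E k) : ℝ := if e.2.2.1 then 0 else -2 * rad k

noncomputable def pp (e : E k) : ℝ := dv e / dist2 e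

noncomputable def qq (e : E k) : ℝ :=
  (if e.2.2.2 then 1 else -1) * √(1 / dist2 e - pp e ^ 2)

/-- Coordinates of the unit normal vector. -/
noncomputable def m1 (e : E k) : ℝ :=
  pp e * ((hi e : ℝ) - lo e) - qq e * ((hi e : ℝ) ^ 2 - (lo e : ℝ) ^ 2)

noncomputable def m2 (e : E k) : ℝ :=
  pp e * ((hi e : ℝ) ^ 2 - (lo e : ℝ) ^ 2) + qq e * ((hi e : ℝ) - lo e)

/-- The tangent line. -/
noncomputable def tan (e : E k) : V :=
  ![m1 e, m2 e, rad k - m1 e * lo e - m2 e * (lo e : ℝ) ^ 2]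

lemma k_pos (e : E k) : 1 ≤ (k : ℝ) := by
  have := hi_lt e
  exact_mod_cast (by omega : 1 ≤ k)

lemma rad_pos (hk : 1 ≤ (k : ℝ)) : 0 < rad k := by
  unfold rad
  positivity

lemma rad_small (hk : 1 ≤ (k : ℝ)) : rad k ≤ 1 / 16 := by
  unfold rad
  rw [div_le_div_iff₀ (by positivity) (by norm_num)]
  nlinarith

lemma rad_mul (hk : 1 ≤ (k : ℝ)) : rad k * (k : ℝ) ^ 2 = 1 / 16 := by
  unfold rad
  field_simp

lemma dist2_ge (e : E k) : 1 ≤ dist2 e := by
  have h1 := one_le_abs_sub (lo_lt_hi e).ne'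
  have h2 : 1 ≤ ((hi e : ℝ) - lo e) ^ 2 := by
    rw [← sq_abs]
    nlinarith
  unfold dist2
  nlinarith [sq_nonneg ((hi e : ℝ) ^ 2 - (lo e : ℝ) ^ 2)]

lemma dv_cases (e : E k) : dv e = 0 ∨ dv e = -2 * rad k := by
  unfold dv
  split_ifs
  · exact Or.inl rfl
  · exact Or.inr rfl

lemma disc_pos (e : E k) : 0 < 1 / dist2 e - pp e ^ 2 := by
  have hk := k_pos e
  have hD := dist2_ge e
  have hr := rad_pos hk
  have hr' := rad_small hk
  have h1 : pp e ^ 2 = dv e ^ 2 / dist2 e * (1 / dist2 e) := by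
    unfold pp
    field_simp
  have h2 : dv e ^ 2 ≤ 1 / 2 := by
    rcases dv_cases e with h | h <;> rw [h] <;> nlinarith
  have h3 : dv e ^ 2 / dist2 e ≤ 1 / 2 := by
    rw [div_le_iff₀ (by linarith)]
    nlinarith
  have h4 : 0 < 1 / dist2 e := by positivity
  rw [h1]
  nlinarith

lemma qq_sq (e : E k) : qq e ^ 2 = 1 / dist2 e - pp e ^ 2 := by
  unfold qq
  rw [mul_pow, Real.sq_sqrt (disc_pos e).le]
  split_ifs <;> norm_num

lemma norm_sq (e : E k) : m1 e ^ 2 + m2 e ^ 2 = 1 := by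
  have hD := dist2_ge e
  have h1 : m1 e ^ 2 + m2 e ^ 2 = (pp e ^ 2 + qq e ^ 2) * dist2 e := by
    unfold m1 m2 dist2
    ring
  rw [h1, qq_sq]
  field_simp
  ring

lemma m_dot (e : E k) : m1 e * ((hi e : ℝ) - lo e) + m2 e * ((hi e : ℝ) ^ 2 - (lo e : ℝ) ^ 2)
    = dv e := by
  have hD := dist2_ge e
  have h1 : m1 e * ((hi e : ℝ) - lo e) + m2 e * ((hi e : ℝ) ^ 2 - (lo e : ℝ) ^ 2)
      = pp e * dist2 e := by
    unfold m1 m2 dist2
    ring
  rw [h1]
  unfold pp
  field_simp

lemma tan_ctr (e : E k) (l : ℕ) :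
    tan e ⬝ᵥ ctr l = rad k + m1 e * ((l : ℝ) - lo e) + m2 e * ((l : ℝ) ^ 2 - (lo e : ℝ) ^ 2) := by
  rw [dot3]
  simp [tan, ctr]
  ring

lemma tan_lo (e : E k) : tan e ⬝ᵥ ctr (lo e) = rad k := by
  rw [tan_ctr]
  ring

lemma tan_hi (e : E k) : tan e ⬝ᵥ ctr (hi e) = rad k + dv e := by
  rw [tan_ctr, add_assoc, m_dot]

lemma abs_tan_hi (e : E k) : |tan e ⬝ᵥ ctr (hi e)| = rad k := by
  have hr := rad_pos (k_pos e)
  rw [tan_hi]
  rcases dv_cases e with h | h
  · rw [h, add_zero, abs_of_pos hr]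
  · rw [h, show rad k + -2 * rad k = -rad k by ring, abs_neg, abs_of_pos hr]

lemma abs_tan_lo (e : E k) : |tan e ⬝ᵥ ctr (lo e)| = rad k := by
  rw [tan_lo, abs_of_pos (rad_pos (k_pos e))]

/-- The other discs are far from the line. -/
lemma abs_tan_other (e : E k) {l : ℕ} (hl : l < k) (h1 : l ≠ lo e) (h2 : l ≠ hi e) :
    rad k < |tan e ⬝ᵥ ctr l| := by
  have hk := k_pos e
  have hr := rad_pos hk
  by_contra hcon
  have hcon' := not_lt.mp hcon
  have hlo := abs_tan_lo e
  have hhi := abs_tan_hi e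
  have hlok : lo e < k := (lo_lt_hi e).trans (hi_lt e)
  have hhik := hi_lt e
  -- bounds for differences of coordinates
  have hb : ∀ {i j : ℕ}, i < k → j < k → |(i : ℝ) - j| ≤ (k : ℝ) ^ 2 := by
    intro i j hi hj
    have h1 : (i : ℝ) < k := by exact_mod_cast hi
    have h2 : (j : ℝ) < k := by exact_mod_cast hj
    have h3 : (0 : ℝ) ≤ i := Nat.cast_nonneg _
    have h4 : (0 : ℝ) ≤ j := Nat.cast_nonneg _
    rw [abs_le]
    constructor <;> nlinarith
  have hb2 : ∀ {i j : ℕ}, i < k → j < k → |(i : ℝ) ^ 2 - (j : ℝ) ^ 2| ≤ (k : ℝ) ^ 2 := by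
    intro i j hi hj
    have h1 : (i : ℝ) < k := by exact_mod_cast hi
    have h2 : (j : ℝ) < k := by exact_mod_cast hj
    have h3 : (0 : ℝ) ≤ i := Nat.cast_nonneg _
    have h4 : (0 : ℝ) ≤ j := Nat.cast_nonneg _
    rw [abs_le]
    constructor <;> nlinarith
  have hu : |m1 e * ((lo e : ℝ) - l) + m2 e * ((lo e : ℝ) ^ 2 - (l : ℝ) ^ 2)| ≤ 2 * rad k := by
    have h3 : m1 e * ((lo e : ℝ) - l) + m2 e * ((lo e : ℝ) ^ 2 - (l : ℝ) ^ 2) =
        tan e ⬝ᵥ ctr (lo e) - tan e ⬝ᵥ ctr l := by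
      rw [tan_ctr, tan_ctr]
      ring
    rw [h3]
    refine (abs_sub _ _).trans ?_
    linarith
  have hw : |m1 e * ((hi e : ℝ) - l) + m2 e * ((hi e : ℝ) ^ 2 - (l : ℝ) ^ 2)| ≤ 2 * rad k := by
    have h3 : m1 e * ((hi e : ℝ) - l) + m2 e * ((hi e : ℝ) ^ 2 - (l : ℝ) ^ 2) =
        tan e ⬝ᵥ ctr (hi e) - tan e ⬝ᵥ ctr l := by
      rw [tan_ctr, tan_ctr]
      ring
    rw [h3]
    refine (abs_sub _ _).trans ?_
    linarith
  have hdet := det_bound (norm_sq e) (by linarith) hu hw (hb hlok hl) (hb2 hlok hl)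
    (hb hhik hl) (hb2 hhik hl)
  have h4 : ((lo e : ℝ) - l) * ((hi e : ℝ) ^ 2 - (l : ℝ) ^ 2) -
      ((lo e : ℝ) ^ 2 - (l : ℝ) ^ 2) * ((hi e : ℝ) - l) =
      ((lo e : ℝ) - l) * ((hi e : ℝ) - l) * ((hi e : ℝ) - lo e) := by ring
  rw [h4, abs_mul, abs_mul] at hdet
  have a1 := one_le_abs_sub h1.symm
  have a2 := one_le_abs_sub h2.symm
  have a3 := one_le_abs_sub (lo_lt_hi e).ne'
  have a4 : 1 * 1 * 1 ≤ |(lo e : ℝ) - l| * |(hi e : ℝ) - l| * |(hi e : ℝ) - lo e| := by
    gcongr
  have a5 := rad_mul hk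
  nlinarith

/-- Different tangents are different as oriented lines. -/
lemma tan_inj {e f : E k} (s : ℝ) (hs : s = 1 ∨ s = -1) (h : tan e = s • tan f) : e = f := by
  have hk := k_pos e
  have hr := rad_pos hk
  have hval : ∀ l, tan e ⬝ᵥ ctr l = s * (tan f ⬝ᵥ ctr l) := by
    intro l
    rw [h, smul_dotProduct, smul_eq_mul]
  have habs : ∀ l, |tan e ⬝ᵥ ctr l| = |tan f ⬝ᵥ ctr l| := by
    intro l
    rw [hval, abs_mul]
    rcases hs with h | h <;> rw [h] <;> simp
  have h1 : lo f = lo e ∨ lo f = hi e := by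
    by_contra hcon
    rw [not_or] at hcon
    have := abs_tan_other e ((lo_lt_hi f).trans (hi_lt f)) hcon.1 hcon.2
    rw [habs, abs_tan_lo] at this
    exact lt_irrefl _ this
  have h2 : hi f = lo e ∨ hi f = hi e := by
    by_contra hcon
    rw [not_or] at hcon
    have := abs_tan_other e (hi_lt f) hcon.1 hcon.2
    rw [habs, abs_tan_hi] at this
    exact lt_irrefl _ this
  have h3 := lo_lt_hi e
  have h4 := lo_lt_hi f
  have hlo : lo f = lo e := by omega
  have hhi : hi f = hi e := by omega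
  have hs1 : s = 1 := by
    have := hval (lo e)
    rw [tan_lo, ← hlo, tan_lo] at this
    rcases hs with h | h
    · exact h
    · rw [h] at this
      linarith
  have hdv : dv e = dv f := by
    have := hval (hi e)
    rw [tan_hi, ← hhi, tan_hi, hs1] at this
    linarith
  have hd : dist2 e = dist2 f := by
    unfold dist2
    rw [hlo, hhi]
  have hp : pp e = pp f := by
    unfold pp
    rw [hdv, hd]
  have hm1 : m1 e = m1 f := by
    have := congrFun h 0
    simpa [tan, hs1] using this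
  have hm2 : m2 e = m2 f := by
    have := congrFun h 1
    simpa [tan, hs1] using this
  have hq : qq e = qq f := by
    have e1 : qq e * dist2 e = m2 e * ((hi e : ℝ) - lo e) -
        m1 e * ((hi e : ℝ) ^ 2 - (lo e : ℝ) ^ 2) := by
      unfold m1 m2 dist2
      ring
    have e2 : qq f * dist2 f = m2 f * ((hi f : ℝ) - lo f) -
        m1 f * ((hi f : ℝ) ^ 2 - (lo f : ℝ) ^ 2) := by
      unfold m1 m2 dist2
      ring
    rw [← hm1, ← hm2, hhi, hlo, ← e1, ← hd] at e2
    have hD := dist2_ge e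
    exact (mul_right_cancel₀ (by linarith) e2).symm
  have hb1 : e.2.2.1 = f.2.2.1 := by
    unfold dv at hdv
    cases h5 : e.2.2.1 <;> cases h6 : f.2.2.1 <;> simp [h5, h6] at hdv ⊢
    · exact hr.ne' hdv
    · exact hr.ne' hdv
  have hb2 : e.2.2.2 = f.2.2.2 := by
    have h7 : 0 < √(1 / dist2 e - pp e ^ 2) := Real.sqrt_pos.mpr (disc_pos e)
    unfold qq at hq
    rw [← hd, ← hp] at hq
    rw [one_div] at h7
    cases h5 : e.2.2.2 <;> cases h6 : f.2.2.2 <;> simp [h5, h6] at hq ⊢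
    · linarith
    · linarith
  obtain ⟨j, i, b1, b2⟩ := e
  obtain ⟨j', i', b1', b2'⟩ := f
  obtain rfl : j' = j := Fin.ext hhi
  obtain rfl : i' = i := Fin.ext hlo
  simp only at hb1 hb2
  subst hb1 hb2
  rfl

/-- The tangent point. -/
lemma tangent_point {i : ℕ} (hi' : i < k) (e : E k) (he : lo e = i ∨ hi e = i) :
    ∃ z : V, tan e ⬝ᵥ z = 0 ∧ ∀ f, f ≠ e → 0 < (tan f ⬝ᵥ ctr i) * (tan f ⬝ᵥ z) := by
  have hk := k_pos e
  have hr := rad_pos hk
  have habs : ∀ f : E k, (lo f = i ∨ hi f = i) → |tan f ⬝ᵥ ctr i| = rad k := by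
    intro f hf
    rcases hf with h | h
    · rw [← h]; exact abs_tan_lo f
    · rw [← h]; exact abs_tan_hi f
  set T := tan e ⬝ᵥ ctr i with hT
  have hTT : T * T = rad k * rad k := by
    rw [← abs_mul_abs_self, habs e he]
  refine ⟨![(i : ℝ) - T * m1 e, (i : ℝ) ^ 2 - T * m2 e, 1], ?_, ?_⟩
  · have h1 : tan e ⬝ᵥ ![(i : ℝ) - T * m1 e, (i : ℝ) ^ 2 - T * m2 e, 1] =
        tan e ⬝ᵥ ctr i - T * (m1 e ^ 2 + m2 e ^ 2) := by
      rw [dot3, dot3]
      simp [tan, ctr]
      ring
    rw [h1, norm_sq, ← hT]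
    ring
  · intro f hf
    have h1 : tan f ⬝ᵥ ![(i : ℝ) - T * m1 e, (i : ℝ) ^ 2 - T * m2 e, 1] =
        tan f ⬝ᵥ ctr i - T * (m1 f * m1 e + m2 f * m2 e) := by
      rw [dot3, dot3]
      simp [tan, ctr]
      ring
    rw [h1]
    set H := tan f ⬝ᵥ ctr i with hH
    set mu := m1 f * m1 e + m2 f * m2 e with hmu
    have ne := norm_sq e
    have nf := norm_sq f
    have hmu1 : |mu| ≤ 1 := by
      rw [← sq_le_one_iff_abs_le_one]
      have : mu ^ 2 + (m1 f * m2 e - m2 f * m1 e) ^ 2 =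
          (m1 e ^ 2 + m2 e ^ 2) * (m1 f ^ 2 + m2 f ^ 2) := by
        rw [hmu]
        ring
      rw [ne, nf] at this
      nlinarith [sq_nonneg (m1 f * m2 e - m2 f * m1 e)]
    have hTabs : |T| = rad k := habs e he
    by_cases hinc : lo f = i ∨ hi f = i
    · have hHabs : |H| = rad k := habs f hinc
      have hHH : H * H = rad k * rad k := by
        rw [← abs_mul_abs_self, hHabs]
      by_contra hneg
      have h2 : H * (H - T * mu) = rad k * rad k - T * H * mu := by
        rw [← hHH]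
        ring
      rw [h2] at hneg
      have h3 : |T * H * mu| ≤ rad k * rad k := by
        rw [abs_mul, abs_mul, hTabs, hHabs]
        have := mul_pos hr hr
        nlinarith
      have h4 : T * H * mu = rad k * rad k := by
        have := (abs_le.mp h3).2
        linarith
      -- the two lines coincide
      have h5 : T = H ∨ T = -H := by
        have : (T - H) * (T + H) = 0 := by linear_combination hTT - hHH
        rcases mul_eq_zero.mp this with h | h
        · exact Or.inl (by linarith)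
        · exact Or.inr (by linarith)
      have hrr : rad k * rad k ≠ 0 := (mul_pos hr hr).ne'
      obtain ⟨s, hs, hTs⟩ : ∃ s : ℝ, (s = 1 ∨ s = -1) ∧ T = s * H := by
        rcases h5 with h | h
        · exact ⟨1, Or.inl rfl, by rw [h, one_mul]⟩
        · exact ⟨-1, Or.inr rfl, by rw [h]; ring⟩
      have hss : s * s = 1 := by
        rcases hs with h | h <;> rw [h] <;> norm_num
      have h6 : s * mu = 1 := by
        rw [hTs] at h4
        have : rad k * rad k * (s * mu) = rad k * rad k * 1 := by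
          rw [← hHH]
          rw [← hHH] at h4
          linarith
        exact mul_left_cancel₀ hrr this
      have h7 : (m1 e - s * m1 f) ^ 2 + (m2 e - s * m2 f) ^ 2 = 0 := by
        have : (m1 e - s * m1 f) ^ 2 + (m2 e - s * m2 f) ^ 2 =
            (m1 e ^ 2 + m2 e ^ 2) + (s * s) * (m1 f ^ 2 + m2 f ^ 2) - 2 * (s * mu) := by
          rw [hmu]
          ring
        rw [this, ne, nf, hss, h6]
        norm_num
      have g1 := sq_nonneg (m1 e - s * m1 f)
      have g2 := sq_nonneg (m2 e - s * m2 f)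
      have h8 : m1 e = s * m1 f := by
        have : m1 e - s * m1 f = 0 := pow_eq_zero_iff (two_ne_zero) |>.mp (by linarith)
        linarith
      have h9 : m2 e = s * m2 f := by
        have : m2 e - s * m2 f = 0 := pow_eq_zero_iff (two_ne_zero) |>.mp (by linarith)
        linarith
      refine hf (tan_inj s hs ?_).symm
      funext j
      fin_cases j
      · simpa [tan] using h8
      · simpa [tan] using h9
      · have e1 : T = rad k - m1 e * lo e - m2 e * (lo e : ℝ) ^ 2 + m1 e * i + m2 e * (i : ℝ) ^ 2 := by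
          rw [hT, tan_ctr]
          ring
        have e2 : H = rad k - m1 f * lo f - m2 f * (lo f : ℝ) ^ 2 + m1 f * i + m2 f * (i : ℝ) ^ 2 := by
          rw [hH, tan_ctr]
          ring
        have e3 : rad k - m1 e * lo e - m2 e * (lo e : ℝ) ^ 2 =
            s * (rad k - m1 f * lo f - m2 f * (lo f : ℝ) ^ 2) := by
          have : rad k - m1 e * lo e - m2 e * (lo e : ℝ) ^ 2 = T - m1 e * i - m2 e * (i : ℝ) ^ 2 := by
            rw [e1]
            ring
          rw [this, hTs, e2, h8, h9]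
          ring
        simpa [tan] using e3
    · rw [not_or] at hinc
      have h2 := abs_tan_other f hi' (Ne.symm hinc.1) (Ne.symm hinc.2)
      rw [← hH] at h2
      have h3 : |H * (T * mu)| < H * H := by
        rw [abs_mul, abs_mul, hTabs, ← abs_mul_abs_self H]
        have h4 : rad k * |mu| ≤ rad k := by nlinarith
        have h5 : 0 < |H| := hr.trans h2
        nlinarith
      have h6 := (abs_lt.mp h3).2
      nlinarith

/-! ### Perturbation -/

/-- Vectors of the moment curve. -/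
def mom (x : ℝ) : V := ![1, x, x ^ 2]

lemma det_mom (x y z : ℝ) : det3 (mom x) (mom y) (mom z) = (y - x) * (z - x) * (z - y) := by
  simp [det3, mom]
  ring

/-- Distinct parameters. -/
noncomputable def th (e : E k) : ℝ := ((Fintype.equivFin (E k) e : ℕ) : ℝ)

lemma th_inj {e f : E k} (h : e ≠ f) : th e ≠ th f := by
  intro h'
  unfold th at h'
  exact h ((Fintype.equivFin (E k)).injective (Fin.ext (by exact_mod_cast h')))

/-- The perturbed line. -/
noncomputable def ptan (t : ℝ) (e : E k) : V := tan e + t • mom (th e)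

lemma ev_ne {d0 d1 d2 d3 : ℝ} (h : d3 ≠ 0) :
    ∀ᶠ t : ℝ in 𝓝[>] 0, d0 + t * d1 + t ^ 2 * d2 + t ^ 3 * d3 ≠ 0 := by
  have hP : (Polynomial.C d0 + Polynomial.C d1 * Polynomial.X +
      Polynomial.C d2 * Polynomial.X ^ 2 + Polynomial.C d3 * Polynomial.X ^ 3) ≠ 0 := by
    intro h0
    have := congrArg (fun P => Polynomial.coeff P 3) h0
    simp at this
    exact h this
  have hfin := Polynomial.finite_setOfPred_isRoot hP
  have hle : 𝓝[>] (0 : ℝ) ≤ cofinite :=
    (nhdsWithin_mono (0 : ℝ) (s := Set.Ioi 0) (t := {0}ᶜ)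
      (fun x hx => ne_of_gt (show (0 : ℝ) < x from hx))).trans (nhdsNE_le_cofinite 0)
  have := hle hfin.compl_mem_cofinite
  filter_upwards [this] with t ht
  intro h0
  refine ht ?_
  simp only [Set.mem_ofPred_eq, Polynomial.IsRoot.def, Polynomial.eval_add, Polynomial.eval_mul,
    Polynomial.eval_C, Polynomial.eval_X, Polynomial.eval_pow]
  linarith

lemma ev_det {e f g : E k} (hef : e ≠ f) (heg : e ≠ g) (hfg : f ≠ g) :
    ∀ᶠ t : ℝ in 𝓝[>] 0, det3 (ptan t e) (ptan t f) (ptan t g) ≠ 0 := by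
  have h3 : det3 (mom (th e)) (mom (th f)) (mom (th g)) ≠ 0 := by
    rw [det_mom]
    exact mul_ne_zero (mul_ne_zero (sub_ne_zero.mpr (th_inj hef.symm))
      (sub_ne_zero.mpr (th_inj heg.symm))) (sub_ne_zero.mpr (th_inj hfg.symm))
  filter_upwards [ev_ne (d0 := det3 (tan e) (tan f) (tan g))
    (d1 := det3 (mom (th e)) (tan f) (tan g) + det3 (tan e) (mom (th f)) (tan g) +
      det3 (tan e) (tan f) (mom (th g)))
    (d2 := det3 (mom (th e)) (mom (th f)) (tan g) + det3 (mom (th e)) (tan f) (mom (th g)) +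
      det3 (tan e) (mom (th f)) (mom (th g))) h3] with t ht
  intro h0
  refine ht ?_
  rw [← h0]
  simp only [det3, ptan, Pi.add_apply, Pi.smul_apply, smul_eq_mul]
  ring

lemma ptan_cont (e : E k) (x : V) : Continuous fun t : ℝ => ptan t e ⬝ᵥ x := by
  simp only [ptan, add_dotProduct, smul_dotProduct]
  fun_prop

lemma ptan_zero (e : E k) : ptan 0 e = tan e := by
  simp [ptan]

lemma ev_sign (e : E k) (x y : V) (h : 0 < (tan e ⬝ᵥ x) * (tan e ⬝ᵥ y)) :
    ∀ᶠ t : ℝ in 𝓝[>] 0, 0 < (ptan t e ⬝ᵥ x) * (ptan t e ⬝ᵥ y) := by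
  have hc : Continuous fun t : ℝ => (ptan t e ⬝ᵥ x) * (ptan t e ⬝ᵥ y) :=
    (ptan_cont e x).mul (ptan_cont e y)
  have h1 : Tendsto (fun t : ℝ => (ptan t e ⬝ᵥ x) * (ptan t e ⬝ᵥ y)) (𝓝[>] 0)
      (𝓝 ((tan e ⬝ᵥ x) * (tan e ⬝ᵥ y))) := by
    have := hc.tendsto 0
    rw [ptan_zero] at this
    exact this.mono_left nhdsWithin_le_nhds
  exact h1.eventually_const_lt h

lemma ev_side {e f : E k} {x z : V} (hx : tan e ⬝ᵥ x ≠ 0) (hz : tan e ⬝ᵥ z = 0)
    (h : 0 < (tan f ⬝ᵥ x) * (tan f ⬝ᵥ z)) :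
    ∀ᶠ t : ℝ in 𝓝[>] 0, 0 < (ptan t f ⬝ᵥ x) *
      (ptan t f ⬝ᵥ (z - ((ptan t e ⬝ᵥ z) / (ptan t e ⬝ᵥ x)) • x)) := by
  have hc : ContinuousAt (fun t : ℝ => (ptan t f ⬝ᵥ x) *
      (ptan t f ⬝ᵥ z - ((ptan t e ⬝ᵥ z) / (ptan t e ⬝ᵥ x)) * (ptan t f ⬝ᵥ x))) 0 := by
    refine (ptan_cont f x).continuousAt.mul ((ptan_cont f z).continuousAt.sub ?_)
    refine ContinuousAt.mul ?_ (ptan_cont f x).continuousAt
    refine (ptan_cont e z).continuousAt.div (ptan_cont e x).continuousAt ?_
    rw [ptan_zero]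
    exact hx
  have h1 := hc.tendsto
  simp only [ptan_zero, hz, zero_div, zero_mul, sub_zero] at h1
  have h2 := (h1.mono_left (nhdsWithin_le_nhds (s := Set.Ioi 0))).eventually_const_lt h
  filter_upwards [h2] with t ht
  rw [dotProduct_sub, dotProduct_smul, smul_eq_mul]
  exact ht

end Lines

lemma sum_incident (k : ℕ) :
    ∑ j : Fin k, (Finset.univ.filter fun e : E k => lo e = j ∨ hi e = j).card
      = 2 * Fintype.card (E k) := by
  classical
  simp only [Finset.card_filter]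
  rw [Finset.sum_comm]
  have h : ∀ e : E k, ∑ j : Fin k, (if lo e = (j : ℕ) ∨ hi e = (j : ℕ) then 1 else 0) = 2 := by
    intro e
    rw [← Finset.card_filter]
    have h1 : (Finset.univ.filter fun j : Fin k => lo e = (j : ℕ) ∨ hi e = (j : ℕ)) =
        {⟨lo e, (lo_lt_hi e).trans (hi_lt e)⟩, ⟨hi e, hi_lt e⟩} := by
      ext j
      simp only [Finset.mem_filter, Finset.mem_univ, true_and, Finset.mem_insert,
        Finset.mem_singleton, Fin.ext_iff]
      exact or_congr eq_comm eq_comm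
    rw [h1, Finset.card_pair]
    intro h2
    exact (lo_lt_hi e).ne (Fin.ext_iff.mp h2)
  rw [Finset.sum_congr rfl fun e _ => h e]
  simp [mul_comm]

lemma lower {k : ℕ} (hk : 2 ≤ k) : ∃ (n : ℕ) (a : Fin n → V) (F : Fin k → Set V),
    IsArrangement a ∧ IsSimple a ∧ Function.Injective F ∧ (∀ j, IsFace a (F j)) ∧
    2 * (k : ℤ) * (k - 1) = (∑ j, (sides a (F j) : ℤ)) - n := by
  classical
  have hkr : 1 ≤ (k : ℝ) := by exact_mod_cast (by omega : 1 ≤ k)
  have hr := rad_pos hkr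
  have hne : ∀ (e : E k) (i : Fin k), tan e ⬝ᵥ ctr i ≠ 0 := by
    intro e i h0
    by_cases h1 : (i : ℕ) = lo e
    · rw [h1, tan_lo] at h0
      exact hr.ne' h0
    · by_cases h2 : (i : ℕ) = hi e
      · have := abs_tan_hi e
        rw [← h2, h0, abs_zero] at this
        exact hr.ne this
      · have := abs_tan_other e i.2 h1 h2
        rw [h0, abs_zero] at this
        exact lt_asymm hr this
  have ev1 : ∀ᶠ t : ℝ in 𝓝[>] 0, ∀ e f g : E k, e ≠ f → e ≠ g → f ≠ g →
      det3 (ptan t e) (ptan t f) (ptan t g) ≠ 0 := by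
    simp only [Filter.eventually_all]
    intro e f g hef heg hfg
    exact ev_det hef heg hfg
  have ev2 : ∀ᶠ t : ℝ in 𝓝[>] 0, ∀ (e : E k) (i : Fin k), ptan t e ⬝ᵥ ctr i ≠ 0 := by
    simp only [Filter.eventually_all]
    intro e i
    filter_upwards [ev_sign e (ctr i) (ctr i) (mul_self_pos.mpr (hne e i))] with t ht
    exact mul_self_pos.mp ht
  have ev3 : ∀ᶠ t : ℝ in 𝓝[>] 0, ∀ (i : Fin k) (e : E k), (lo e = i ∨ hi e = i) →
      ∃ z : V, ptan t e ⬝ᵥ z = 0 ∧ ∀ f, f ≠ e → 0 < (ptan t f ⬝ᵥ ctr i) * (ptan t f ⬝ᵥ z) := by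
    simp only [Filter.eventually_all]
    intro i e he
    obtain ⟨z, hz, hp⟩ := tangent_point i.2 e he
    have h1 : ∀ᶠ t : ℝ in 𝓝[>] 0, ∀ f : E k, f ≠ e → 0 < (ptan t f ⬝ᵥ ctr i) *
        (ptan t f ⬝ᵥ (z - ((ptan t e ⬝ᵥ z) / (ptan t e ⬝ᵥ ctr i)) • ctr i)) := by
      simp only [Filter.eventually_all]
      intro f hf
      exact ev_side (hne e i) hz (hp f hf)
    filter_upwards [h1, ev2] with t ht ht2
    refine ⟨_, ?_, ht⟩
    rw [dotProduct_sub, dotProduct_smul, smul_eq_mul, div_mul_cancel₀ _ (ht2 e i), sub_self]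
  have ev4 : ∀ᶠ t : ℝ in 𝓝[>] 0, ∀ (e : E k), (dv e = 0 →
      0 < (ptan t e ⬝ᵥ ctr (lo e)) * (ptan t e ⬝ᵥ ctr (hi e))) ∧ (dv e = -2 * rad k →
      (ptan t e ⬝ᵥ ctr (lo e)) * (ptan t e ⬝ᵥ ctr (hi e)) < 0) := by
    simp only [Filter.eventually_all]
    intro e
    refine Filter.Eventually.and ?_ ?_
    · simp only [Filter.eventually_imp_distrib_left]
      intro h
      refine ev_sign e _ _ ?_
      rw [tan_lo, tan_hi, h, add_zero]
      exact mul_pos hr hr
    · simp only [Filter.eventually_imp_distrib_left]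
      intro h
      filter_upwards [ev_sign e (ctr (lo e)) (-ctr (hi e)) (by
        rw [dotProduct_neg, tan_lo, tan_hi, h]
        nlinarith [mul_pos hr hr])] with t ht
      rw [dotProduct_neg] at ht
      linarith
  obtain ⟨t, h1, h2, h3, h4⟩ := (ev1.and (ev2.and (ev3.and ev4))).exists
  set n := 2 * k * (k - 1) with hn
  have hn3 : 3 ≤ n := by
    obtain ⟨m, rfl⟩ : ∃ m, k = m + 2 := ⟨k - 2, by omega⟩
    rw [hn]
    have : m + 2 - 1 = m + 1 := rfl
    rw [this]
    nlinarith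
  let φ : E k ≃ Fin n := Fintype.equivFinOfCardEq (card_E k)
  let a : Fin n → V := fun i => ptan t (φ.symm i)
  have hsim : IsSimple a := by
    intro i j l hij hil hjl
    exact (det3_ne_zero_iff _ _ _).mp (h1 _ _ _ (φ.symm.injective.ne hij)
      (φ.symm.injective.ne hil) (φ.symm.injective.ne hjl))
  have k0 : 0 < k := by omega
  have hnz : ∀ i, a i ≠ 0 := by
    intro i h0
    refine h2 (φ.symm i) ⟨0, k0⟩ ?_
    change a i ⬝ᵥ _ = 0
    rw [h0, zero_dotProduct]
  have harr : IsArrangement a := by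
    refine ⟨hn3, hnz, ?_, ?_⟩
    · intro i j hij c hc
      obtain ⟨l, _, hl⟩ := Finset.exists_mem_notMem_of_card_lt_card
        (s := ({i, j} : Finset (Fin n))) (t := Finset.univ) (by
          rw [Finset.card_pair hij, Finset.card_univ, Fintype.card_fin]
          omega)
      simp only [Finset.mem_insert, Finset.mem_singleton, not_or] at hl
      have := simple_det hsim hij (Ne.symm hl.1) (Ne.symm hl.2)
      refine this ?_
      rw [hc]
      simp only [det3, Pi.smul_apply, smul_eq_mul]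
      ring
    · intro x hx
      exact hsim ⟨0, by omega⟩ ⟨1, by omega⟩ ⟨2, by omega⟩ (by simp) (by simp) (by simp) x
        (hx _) (hx _) (hx _)
  have hoff : ∀ j : Fin k, ctr j ∈ offLines a := fun j i => h2 _ j
  let F : Fin k → Set V := fun j => face a (ctr j)
  have hface : ∀ j, IsFace a (F j) := fun j => ⟨ctr j, hoff j, rfl⟩
  have hinj : ∀ i j : Fin k, (i : ℕ) < j → F i ≠ F j := by
    intro i j hij hF
    have hmem : ctr j ∈ face a (ctr i) := by
      have : ctr j ∈ face a (ctr j) := (mem_face (hoff j) _).mpr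
        (Or.inl fun l => mul_self_pos.mpr (hoff j l))
      have hF' : face a (ctr i) = face a (ctr j) := hF
      rw [hF']
      exact this
    let e1 : E k := ⟨j, ⟨i, hij⟩, true, true⟩
    let e2 : E k := ⟨j, ⟨i, hij⟩, false, true⟩
    have g1 := (h4 e1).1 (by simp [dv, e1])
    have g2 := (h4 e2).2 (by simp [dv, e2])
    change 0 < (ptan t e1 ⬝ᵥ ctr i) * (ptan t e1 ⬝ᵥ ctr j) at g1
    change (ptan t e2 ⬝ᵥ ctr i) * (ptan t e2 ⬝ᵥ ctr j) < 0 at g2
    rcases (mem_face (hoff i) _).mp hmem with h | h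
    · have := h (φ e2)
      simp only [a, Equiv.symm_apply_apply] at this
      linarith
    · have := h (φ e1)
      simp only [a, Equiv.symm_apply_apply] at this
      linarith
  have hFinj : Function.Injective F := by
    intro i j hij
    by_contra hne'
    rcases lt_or_gt_of_ne (fun h => hne' (Fin.ext h) : (i : ℕ) ≠ j) with h | h
    · exact hinj i j h hij
    · exact hinj j i h hij.symm
  have hside : ∀ (j : Fin k) (e : E k), (lo e = j ∨ hi e = j) → IsSide a (F j) (φ e) := by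
    intro j e he
    obtain ⟨z, hz, hp⟩ := h3 j e he
    obtain ⟨l, _, hl⟩ := Finset.exists_mem_notMem_of_card_lt_card
      (s := ({φ e} : Finset (Fin n))) (t := Finset.univ) (by
        rw [Finset.card_singleton, Finset.card_univ, Fintype.card_fin]
        omega)
    have hle : φ.symm l ≠ e := by
      intro h
      refine hl ?_
      rw [← h]
      simp
    refine isSide_of_point (hoff j) (hnz _) (z := z) ?_ ?_ ?_
    · intro h0
      have := hp _ hle
      rw [h0, dotProduct_zero, mul_zero] at this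
      exact lt_irrefl _ this
    · simpa [a] using hz
    · intro i hi'
      exact hp (φ.symm i) (fun h => hi' (by rw [← h]; simp))
  have hcount : ∀ j : Fin k, (Finset.univ.filter fun e : E k => lo e = j ∨ hi e = j).card ≤
      sides a (F j) := by
    intro j
    rw [sides, Set.ncard_eq_toFinset_card', ← Finset.card_map φ.toEmbedding]
    refine Finset.card_le_card fun i hi' => ?_
    simp only [Finset.mem_map, Finset.mem_filter, Finset.mem_univ, true_and] at hi'
    obtain ⟨e, he, rfl⟩ := hi'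
    simpa using hside j e he
  have hsum : 2 * n ≤ ∑ j, sides a (F j) := by
    calc 2 * n = ∑ j : Fin k, (Finset.univ.filter fun e : E k => lo e = j ∨ hi e = j).card := by
          rw [sum_incident, card_E]
      _ ≤ _ := Finset.sum_le_sum fun j _ => hcount j
  refine ⟨n, a, F, harr, hsim, hFinj, hface, ?_⟩
  have hup := upper (by omega) harr hsim F hFinj hface
  have h5 : ((2 * n : ℕ) : ℤ) ≤ ((∑ j, sides a (F j) : ℕ) : ℤ) := by exact_mod_cast hsum
  have h6 : (n : ℤ) = 2 * (k : ℤ) * (k - 1) := by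
    rw [hn]
    push_cast [Nat.cast_sub (by omega : 1 ≤ k)]
    ring
  push_cast at h5
  linarith

lemma lower_one : ∃ (n : ℕ) (a : Fin n → V) (F : Fin 1 → Set V),
    IsArrangement a ∧ IsSimple a ∧ Function.Injective F ∧ (∀ j, IsFace a (F j)) ∧
    2 * ((1 : ℕ) : ℤ) * (((1 : ℕ) : ℤ) - 1) = (∑ j, (sides a (F j) : ℤ)) - n := by
  classical
  let a : Fin 3 → V := fun i => Pi.single i 1
  have hdot : ∀ i x, a i ⬝ᵥ x = x i := fun i x => by simp [a]
  have hoff : (fun _ => 1 : V) ∈ offLines a := fun i => by rw [hdot]; norm_num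
  have hsim : IsSimple a := by
    intro i j l hij hil hjl x hi' hj' hl'
    rw [hdot] at hi' hj' hl'
    have : ∀ i j l : Fin 3, i ≠ j → i ≠ l → j ≠ l → ∀ m : Fin 3, m = i ∨ m = j ∨ m = l := by
      decide
    funext m
    rcases this i j l hij hil hjl m with rfl | rfl | rfl <;> assumption
  have harr : IsArrangement a := by
    refine ⟨le_rfl, ?_, ?_, ?_⟩
    · intro i h
      have := congrFun h i
      simp [a] at this
    · intro i j hij c h
      have := congrFun h i
      simp [a, hij] at this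
    · intro x hx
      funext i
      rw [← hdot i x]
      exact hx i
  refine ⟨3, a, fun _ => face a (fun _ => 1), harr, hsim, fun i j _ => Subsingleton.elim i j,
    fun _ => ⟨_, hoff, rfl⟩, ?_⟩
  have hall : {i | IsSide a (face a fun _ => 1) i} = Set.univ := by
    refine Set.eq_univ_of_forall fun i => ?_
    refine isSide_of_point hoff (harr.2.1 i) (z := fun j => if j = i then 0 else 1) ?_ ?_ ?_
    · intro h0
      have := congrFun h0 (i + 1)
      simp at this
    · rw [hdot]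
      simp
    · intro j hj
      rw [hdot, hdot]
      simp [hj]
  simp [sides, hall]

/-- **Main result.**  For every `k ≥ 1`, the largest value of `q₁ + ⋯ + q_k - n` over all simple
arrangements of `n ≥ 3` lines in the real projective plane and all choices of `k` pairwise
different faces, a `q₁`-gon, ..., a `q_k`-gon, is exactly `2 k (k - 1)`. -/
theorem result (k : ℕ) (hk : 1 ≤ k) :
    IsGreatest {m : ℤ | ∃ (n : ℕ) (a : Fin n → V) (F : Fin k → Set V),
      IsArrangement a ∧ IsSimple a ∧ Function.Injective F ∧ (∀ j, IsFace a (F j)) ∧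
      m = (∑ j, (sides a (F j) : ℤ)) - n} (2 * k * (k - 1)) := by
  constructor
  · rcases hk.eq_or_lt with rfl | h
    · exact lower_one
    · exact lower h
  · rintro m ⟨n, a, F, ha, hs, hF, hf, rfl⟩
    exact upper hk ha hs F hF hf

end Pool.Agent.Results.MP_fa8579_co.ExactValue
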